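import Mathlib
import Pool.Agent.Helper9.QN.Mx
import Pool.Agent.Helper9.QP.X2
import Pool.Agent.Helper9.QP.M1

set_option autoImplicit false

open scoped Quaternion
open Matrix

namespace Pool.Agent.Results.MP_c77211_al.Canonical

/-- quaternion matrices -/
abbrev Mat (n : ℕ) : Type := Matrix (Fin n) (Fin n) ℍ[ℝ]

/-- right `ℍ`-subspaces of `ℍ^n` -/
abbrev RSub (n : ℕ) : Type := Submodule (ℍ[ℝ])ᵐᵒᵖ (Fin n → ℍ[ℝ])

/-- dimension over `ℍ` -/
noncomputable abbrev qdim {n : ℕ} (M : RSub n) : ℕ := Module.finrank (ℍ[ℝ])ᵐᵒᵖ M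

/-- `M` is `A`-neutral: `y^* A x = 0` for all `x, y` in `M` -/
def Neutral {n : ℕ} (A : Mat n) (M : RSub n) : Prop :=
  ∀ x ∈ M, ∀ y ∈ M, star y ⬝ᵥ A *ᵥ x = 0

/-- `M` is `(A,B)`-neutral -/
def PairNeutral {n : ℕ} (A B : Mat n) (M : RSub n) : Prop := Neutral A M ∧ Neutral B M

/-- `M` is a maximal `(A,B)`-neutral subspace -/
def MaxPairNeutral {n : ℕ} (A B : Mat n) (M : RSub n) : Prop :=
  PairNeutral A B M ∧ ∀ M' : RSub n, PairNeutral A B M' → M ≤ M' → M' = M

/-- all maximal `(A,B)`-neutral subspaces have the same dimension over `ℍ` -/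
def SameDim {n : ℕ} (A B : Mat n) : Prop :=
  ∀ M N : RSub n, MaxPairNeutral A B M → MaxPairNeutral A B N → qdim M = qdim N

/-- some nontrivial real combination of `A` and `B` is positive semidefinite -/
def Semidefinite {n : ℕ} (A B : Mat n) : Prop :=
  ∃ μ ν : ℝ, (μ ≠ 0 ∨ ν ≠ 0) ∧ ∀ x : Fin n → ℍ[ℝ], 0 ≤ (star x ⬝ᵥ (μ • A + ν • B) *ᵥ x).re

/-- the pair `(C, D)` is simultaneously congruent to the direct sum of a zero block of size `k`
and the canonical blocks of the list `L` (`cM L`, `dM L` are the block diagonal matrices with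
diagonal blocks `cB p`, `dB p`, `p ∈ L`) -/
def CongruentTo {n : ℕ} (C D : Mat n) (k : ℕ) (L : List Pool.QN.Piece) : Prop :=
  ∃ (S : Matrix (Fin n) (Fin k ⊕ Pool.QN.Ix L) ℍ[ℝ])
    (T : Matrix (Fin k ⊕ Pool.QN.Ix L) (Fin n) ℍ[ℝ]), S * T = 1 ∧ T * S = 1 ∧
    Sᴴ * C * S = Matrix.fromBlocks 0 0 0 ((Pool.QN.cM L).map fun x : ℝ => (x : ℍ[ℝ])) ∧
    Sᴴ * D * S = Matrix.fromBlocks 0 0 0 ((Pool.QN.dM L).map fun x : ℝ => (x : ℍ[ℝ]))

section bridge
open Pool.QN
variable {n : ℕ}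

theorem neu_iff (A B : Mat n) (M : RSub n) : Neu (fm A) (fm B) M ↔ PairNeutral A B M := by
  unfold Neu PairNeutral Neutral
  rw [← fm_zero_iff, ← fm_zero_iff]
  constructor
  · intro h
    exact ⟨fun x hx y hy => (h x hx y hy).1, fun x hx y hy => (h x hx y hy).2⟩
  · intro h x hx y hy
    exact ⟨h.1 x hx y hy, h.2 x hx y hy⟩

theorem maxNeu_iff (A B : Mat n) (M : RSub n) : MaxNeu (fm A) (fm B) M ↔ MaxPairNeutral A B M := by
  unfold MaxNeu MaxPairNeutral
  rw [neu_iff]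
  refine and_congr_right fun _ => forall_congr' fun M' => ?_
  rw [neu_iff]

theorem pp_iff (A B : Mat n) : PP (fm A) (fm B) ↔ SameDim A B := by
  unfold PP SameDim
  refine forall_congr' fun M => forall_congr' fun N => ?_
  rw [maxNeu_iff, maxNeu_iff]

theorem sd_iff (A B : Mat n) : SD (fm A) (fm B) ↔ Semidefinite A B := by
  unfold SD Semidefinite
  refine exists_congr fun μ => exists_congr fun ν => ?_
  refine and_congr_right fun _ => forall_congr' fun x => ?_
  rw [← fm_comb]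
  rfl

end bridge

/-- **Main theorem.** For hermitian quaternion matrices `A`, `B`: all maximal `(A,B)`-neutral
subspaces have the same dimension if and only if some nontrivial real combination of `A` and `B`
is semidefinite, or some basis `C, D` of their real pencil is simultaneously congruent to the
direct sum of a zero block and an admissible list of canonical blocks. -/
theorem result {n : ℕ} (A B : Mat n) (hA : A.IsHermitian) (hB : B.IsHermitian) :
    SameDim A B ↔ (Semidefinite A B ∨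
      ∃ μ ν ρ τ : ℝ, μ * τ - ν * ρ ≠ 0 ∧ ∃ (k : ℕ) (L : List Pool.QN.Piece),
        Pool.QN.Adm L ∧ CongruentTo (μ • A + ν • B) (ρ • A + τ • B) k L) := by
  have := Pool.QN.finite_right
  have : FiniteDimensional Pool.QN.Q (Fin n → ℍ[ℝ]) := Module.Finite.pi
  rw [← pp_iff, ← sd_iff, Pool.QN.canon (Pool.QN.isF_fm hA) (Pool.QN.isF_fm hB)]
  refine or_congr Iff.rfl ?_
  constructor
  · rintro ⟨μ, ν, ρ, τ, hd, L, hL, W, hW, h⟩
    obtain ⟨k, S, T, h1, h2, h3, h4⟩ := Pool.QN.canonM_of A B hA hB μ ν ρ τ hd L W hW h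
    exact ⟨μ, ν, ρ, τ, hd, k, L, hL, S, T, h1, h2, h3, h4⟩
  · rintro ⟨μ, ν, ρ, τ, hd, k, L, hL, S, T, h1, h2, h3, h4⟩
    obtain ⟨W, hW, h⟩ := Pool.QN.canonM_to A B hA hB μ ν ρ τ hd L k S T h1 h2 h3 h4
    exact ⟨μ, ν, ρ, τ, hd, L, hL, W, hW, h⟩

end Pool.Agent.Results.MP_c77211_al.Canonical
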