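import Mathlib
import Pool.Agent.Helper9.QN.Mx
import Pool.Agent.Helper9.QP.K2

set_option autoImplicit false

open scoped Quaternion
open Matrix

namespace Pool.Agent.Results.MP_c77211_al.Classification

/-- quaternion matrices -/
abbrev Mat (n : ℕ) : Type := Matrix (Fin n) (Fin n) ℍ[ℝ]

/-- right `ℍ`-subspaces of `ℍ^n` -/
abbrev RSub (n : ℕ) : Type := Submodule (ℍ[ℝ])ᵐᵒᵖ (Fin n → ℍ[ℝ])

/-- dimension over `ℍ` -/
noncomputable abbrev qdim {n : ℕ} (M : RSub n) : ℕ := Module.finrank (ℍ[ℝ])ᵐᵒᵖ M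

/-- `M` is `A`-neutral: `y^* A x = 0` for all `x, y` in `M` -/
def Neutral {n : ℕ} (A : Mat n) (M : RSub n) : Prop :=
  ∀ x ∈ M, ∀ y ∈ M, star y ⬝ᵥ A *ᵥ x = 0

/-- `M` is `(A,B)`-neutral -/
def PairNeutral {n : ℕ} (A B : Mat n) (M : RSub n) : Prop := Neutral A M ∧ Neutral B M

/-- `M` is a maximal `(A,B)`-neutral subspace -/
def MaxPairNeutral {n : ℕ} (A B : Mat n) (M : RSub n) : Prop :=
  PairNeutral A B M ∧ ∀ M' : RSub n, PairNeutral A B M' → M ≤ M' → M' = M

/-- all maximal `(A,B)`-neutral subspaces have the same dimension over `ℍ` -/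
def SameDim {n : ℕ} (A B : Mat n) : Prop :=
  ∀ M N : RSub n, MaxPairNeutral A B M → MaxPairNeutral A B N → qdim M = qdim N

/-- negative index of a hermitian matrix: the largest dimension of a subspace on which
`x^* H x < 0` for all nonzero `x` -/
noncomputable def negIndex {n : ℕ} (H : Mat n) : ℕ :=
  sSup {k | ∃ W : RSub n, (∀ x ∈ W, x ≠ 0 → (star x ⬝ᵥ H *ᵥ x).re < 0) ∧ qdim W = k}

/-- some nontrivial real combination of `A` and `B` is positive semidefinite -/
def Semidefinite {n : ℕ} (A B : Mat n) : Prop :=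
  ∃ μ ν : ℝ, (μ ≠ 0 ∨ ν ≠ 0) ∧ ∀ x : Fin n → ℍ[ℝ], 0 ≤ (star x ⬝ᵥ (μ • A + ν • B) *ᵥ x).re

/-- the kernel of `C` is the common kernel of `A` and `B` (used for `C` in their real span) -/
def MinKer {n : ℕ} (A B C : Mat n) : Prop :=
  ∀ x : Fin n → ℍ[ℝ], C *ᵥ x = 0 → A *ᵥ x = 0 ∧ B *ᵥ x = 0

/-- the smallest negative index of a real combination of `A` and `B` with minimal kernel -/
noncomputable def kappa {n : ℕ} (A B : Mat n) : ℕ :=
  sInf {k | ∃ μ ν : ℝ, MinKer A B (μ • A + ν • B) ∧ negIndex (μ • A + ν • B) = k}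

/-- the inertia criterion: for every basis `C, D` of the pencil such that `C` has minimal kernel,
some matrix `D C⁻¹ D + p D + q C` (`p, q` real) has negative index at most
`negIndex C - kappa A B`.  Here `D C⁻¹ D` is `X^* C X` with `C X = D`. -/
def InertiaCriterion {n : ℕ} (A B : Mat n) : Prop :=
  ∀ μ ν ρ τ : ℝ, μ * τ - ν * ρ ≠ 0 → MinKer A B (μ • A + ν • B) →
    ∃ X : Mat n, (μ • A + ν • B) * X = ρ • A + τ • B ∧
      ∃ p q : ℝ, negIndex (Xᴴ * (μ • A + ν • B) * X + p • (ρ • A + τ • B) + q • (μ • A + ν • B))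
        + kappa A B ≤ negIndex (μ • A + ν • B)

section bridge
open Pool.QN
variable {n : ℕ}

theorem neu_iff (A B : Mat n) (M : RSub n) : Neu (fm A) (fm B) M ↔ PairNeutral A B M := by
  unfold Neu PairNeutral Neutral
  rw [← fm_zero_iff, ← fm_zero_iff]
  constructor
  · intro h
    exact ⟨fun x hx y hy => (h x hx y hy).1, fun x hx y hy => (h x hx y hy).2⟩
  · intro h x hx y hy
    exact ⟨h.1 x hx y hy, h.2 x hx y hy⟩

theorem maxNeu_iff (A B : Mat n) (M : RSub n) : MaxNeu (fm A) (fm B) M ↔ MaxPairNeutral A B M := by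
  unfold MaxNeu MaxPairNeutral
  rw [neu_iff]
  refine and_congr_right fun _ => forall_congr' fun M' => ?_
  rw [neu_iff]

theorem pp_iff (A B : Mat n) : PP (fm A) (fm B) ↔ SameDim A B := by
  unfold PP SameDim
  refine forall_congr' fun M => forall_congr' fun N => ?_
  rw [maxNeu_iff, maxNeu_iff]

theorem nn_eq (H : Mat n) : nn (fm H) ⊤ = negIndex H := by
  unfold nn negIndex NegOn
  congr 1
  ext k
  constructor
  · rintro ⟨U, _, h1, h2⟩
    exact ⟨U, h1, h2⟩
  · rintro ⟨U, h1, h2⟩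
    exact ⟨U, le_top, h1, h2⟩

theorem kmin_iff' {A B : Mat n} (hA : A.IsHermitian) (hB : B.IsHermitian) {C : Mat n}
    (hC : C.IsHermitian) : KMin (fm A) (fm B) (fm C) ↔ MinKer A B C := by
  unfold KMin MinKer
  refine forall_congr' fun x => ?_
  rw [fm_zero_left hA, fm_zero_left hB, fm_zero_left hC]

theorem sd_iff (A B : Mat n) : SD (fm A) (fm B) ↔ Semidefinite A B := by
  unfold SD Semidefinite
  refine exists_congr fun μ => exists_congr fun ν => ?_
  refine and_congr_right fun _ => forall_congr' fun x => ?_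
  rw [← fm_comb]
  rfl

theorem reg_iff {A B : Mat n} (hA : A.IsHermitian) (hB : B.IsHermitian) :
    Reg (fm A) (fm B) ↔ ∃ μ ν : ℝ, MinKer A B (μ • A + ν • B) := by
  unfold Reg
  refine exists_congr fun μ => exists_congr fun ν => ?_
  rw [← fm_comb, kmin_iff' hA hB (isHerm_comb hA hB μ ν)]

theorem kap_eq {A B : Mat n} (hA : A.IsHermitian) (hB : B.IsHermitian) :
    kap (fm A) (fm B) = kappa A B := by
  unfold kap kappa
  congr 1
  ext k
  refine exists_congr fun μ => exists_congr fun ν => ?_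
  rw [← fm_comb, kmin_iff' hA hB (isHerm_comb hA hB μ ν), nn_eq]

theorem crit_iff {A B : Mat n} (hA : A.IsHermitian) (hB : B.IsHermitian) :
    Crit (fm A) (fm B) ↔ InertiaCriterion A B := by
  unfold Crit InertiaCriterion
  refine forall_congr' fun μ => forall_congr' fun ν => forall_congr' fun ρ => forall_congr' fun τ =>
    forall_congr' fun _ => ?_
  rw [← fm_comb, ← fm_comb, kmin_iff' hA hB (isHerm_comb hA hB μ ν), kap_eq hA hB, nn_eq]
  refine forall_congr' fun _ => ?_
  constructor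
  · rintro ⟨T, hT, p, q, h⟩
    obtain ⟨X, rfl⟩ := exists_Tm T
    refine ⟨X, (fm_eq_iff _ _ _).1 hT, p, q, ?_⟩
    rw [← fm_tt, ← fm_smul, ← fm_smul, ← fm_add, ← fm_add, nn_eq] at h
    exact h
  · rintro ⟨X, hX, p, q, h⟩
    refine ⟨Tm X, (fm_eq_iff _ _ _).2 hX, p, q, ?_⟩
    rw [← fm_tt, ← fm_smul, ← fm_smul, ← fm_add, ← fm_add, nn_eq]
    exact h

theorem finite_right : Module.Finite (ℍ[ℝ])ᵐᵒᵖ ℍ[ℝ] := by
  refine ⟨⟨{1}, ?_⟩⟩
  rw [eq_top_iff]
  intro x _
  rw [Finset.coe_singleton, Submodule.mem_span_singleton]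
  exact ⟨MulOpposite.op x, by rw [MulOpposite.smul_eq_mul_unop, MulOpposite.unop_op, one_mul]⟩

end bridge

/-- **Main theorem.** For hermitian quaternion matrices `A`, `B`: all maximal `(A,B)`-neutral
subspaces have the same dimension if and only if some nontrivial real combination of `A` and `B`
is semidefinite, or some real combination has the common kernel of `A` and `B` as its kernel and
the inertia criterion holds. -/
theorem result {n : ℕ} (A B : Mat n) (hA : A.IsHermitian) (hB : B.IsHermitian) :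
    SameDim A B ↔
      (Semidefinite A B ∨ ((∃ μ ν : ℝ, MinKer A B (μ • A + ν • B)) ∧ InertiaCriterion A B)) := by
  have := finite_right
  have : FiniteDimensional Pool.QN.Q (Fin n → ℍ[ℝ]) := Module.Finite.pi
  rw [← pp_iff, ← sd_iff, ← reg_iff hA hB, ← crit_iff hA hB]
  exact Pool.QN.main (Pool.QN.isF_fm hA) (Pool.QN.isF_fm hB)

end Pool.Agent.Results.MP_c77211_al.Classification
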