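import Mathlib
import Pool.Agent.Helper915.QPair

set_option autoImplicit false

open scoped Quaternion
open Matrix

namespace Pool.Agent.Results.MP_c77211_al.Lagrangian

/-- quaternion matrices -/
abbrev Mat (n : ℕ) : Type := Matrix (Fin n) (Fin n) ℍ[ℝ]

/-- right `ℍ`-subspaces of `ℍ^n` -/
abbrev RSub (n : ℕ) : Type := Submodule (ℍ[ℝ])ᵐᵒᵖ (Fin n → ℍ[ℝ])

/-- `M` is `A`-neutral: `y^* A x = 0` for all `x, y` in `M` -/
def Neutral {n : ℕ} (A : Mat n) (M : RSub n) : Prop :=
  ∀ x ∈ M, ∀ y ∈ M, star y ⬝ᵥ A *ᵥ x = 0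

/-- `M` is `(A,B)`-neutral -/
def PairNeutral {n : ℕ} (A B : Mat n) (M : RSub n) : Prop := Neutral A M ∧ Neutral B M

/-- `M` is a maximal `(A,B)`-neutral subspace -/
def MaxPairNeutral {n : ℕ} (A B : Mat n) (M : RSub n) : Prop :=
  PairNeutral A B M ∧ ∀ M' : RSub n, PairNeutral A B M' → M ≤ M' → M' = M

/-- all maximal `(A,B)`-neutral subspaces have the same dimension over `ℍ` -/
def SameDim {n : ℕ} (A B : Mat n) : Prop :=
  ∀ M₁ M₂ : RSub n, MaxPairNeutral A B M₁ → MaxPairNeutral A B M₂ →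
    Module.finrank (ℍ[ℝ])ᵐᵒᵖ M₁ = Module.finrank (ℍ[ℝ])ᵐᵒᵖ M₂

section forms
variable {n : ℕ}

theorem star_smul_vec (c : ℝ) (x : Fin n → ℍ[ℝ]) : star (c • x) = c • star x := by
  funext i
  exact Quaternion.star_smul c (x i)

/-- the real form `Re (x^* B y)` -/
noncomputable def fm (B : Mat n) : LinearMap.BilinForm ℝ (Fin n → ℍ[ℝ]) :=
  LinearMap.mk₂ ℝ (fun x y => (star x ⬝ᵥ B *ᵥ y).re)
    (by intro x y z; rw [star_add, add_dotProduct, Quaternion.re_add])
    (by intro c x y; rw [star_smul_vec, smul_dotProduct, Quaternion.re_smul])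
    (by intro x y z; rw [mulVec_add, dotProduct_add, Quaternion.re_add])
    (by intro c x y; rw [mulVec_smul, dotProduct_smul, Quaternion.re_smul])

theorem fm_apply (B : Mat n) (x y : Fin n → ℍ[ℝ]) : fm B x y = (star x ⬝ᵥ B *ᵥ y).re := rfl

theorem star_form {B : Mat n} (hB : B.IsHermitian) (x y : Fin n → ℍ[ℝ]) :
    star (star x ⬝ᵥ B *ᵥ y) = star y ⬝ᵥ B *ᵥ x := by
  rw [← star_dotProduct_star, star_star, star_mulVec, hB.eq, ← dotProduct_mulVec]

theorem fm_symm {B : Mat n} (hB : B.IsHermitian) (x y : Fin n → ℍ[ℝ]) : fm B x y = fm B y x := by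
  rw [fm_apply, fm_apply, ← star_form hB y x, Quaternion.re_star]

theorem form_smul (B : Mat n) (x y : Fin n → ℍ[ℝ]) (d e : (ℍ[ℝ])ᵐᵒᵖ) :
    star (d • x) ⬝ᵥ B *ᵥ (e • y) = star d.unop * (star x ⬝ᵥ B *ᵥ y) * e.unop := by
  rw [mulVec_smul, dotProduct_smul]
  have h1 : star (d • x) ⬝ᵥ B *ᵥ y = star d.unop * (star x ⬝ᵥ B *ᵥ y) := by
    simp only [dotProduct, Pi.star_apply, Pi.smul_apply, Finset.mul_sum]
    refine Finset.sum_congr rfl fun i _ => ?_
    rw [MulOpposite.smul_eq_mul_unop, star_mul, mul_assoc]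
  rw [h1, MulOpposite.smul_eq_mul_unop]

theorem re_mul_comm' (p q : ℍ[ℝ]) : (p * q).re = (q * p).re := by
  rw [Quaternion.re_mul, Quaternion.re_mul]
  ring

theorem re_sum' {ι : Type*} (s : Finset ι) (f : ι → ℍ[ℝ]) : (∑ i ∈ s, f i).re = ∑ i ∈ s, (f i).re := by
  classical
  induction s using Finset.induction_on with
  | empty => simp
  | insert a s ha ih => rw [Finset.sum_insert ha, Finset.sum_insert ha, Quaternion.re_add, ih]

theorem self_eq_zero {x : Fin n → ℍ[ℝ]} (h : (star x ⬝ᵥ x).re = 0) : x = 0 := by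
  have h1 : (star x ⬝ᵥ x).re = ∑ i, Quaternion.normSq (x i) := by
    simp only [dotProduct, Pi.star_apply]
    rw [re_sum']
    refine Finset.sum_congr rfl fun i _ => ?_
    rw [Quaternion.star_mul_self]
    rfl
  rw [h1, Finset.sum_eq_zero_iff_of_nonneg (fun i _ => Quaternion.normSq_nonneg)] at h
  funext i
  exact Quaternion.normSq_eq_zero.1 (h i (Finset.mem_univ i))

/-- the right linear map of a matrix -/
noncomputable def Tm (N : Mat n) : (Fin n → ℍ[ℝ]) →ₗ[(ℍ[ℝ])ᵐᵒᵖ] (Fin n → ℍ[ℝ]) where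
  toFun x := N *ᵥ x
  map_add' := mulVec_add N
  map_smul' d x := mulVec_smul N d x

theorem Tm_apply (N : Mat n) (x : Fin n → ℍ[ℝ]) : Tm N x = N *ᵥ x := rfl

theorem dat {A B : Mat n} (hA : A.IsHermitian) (hB : B.IsHermitian) {B' : Mat n} (h1 : B * B' = 1)
    : Pool.Agent.Helper915.QPair.Dat (D := (ℍ[ℝ])ᵐᵒᵖ) (fm B) (fm A) (Tm (B' * A)) where
  bs := fm_symm hB
  as := fm_symm hA
  nd := by
    intro x hx
    apply self_eq_zero
    have h := hx (B' *ᵥ x)
    rw [fm_apply, mulVec_mulVec, h1, one_mulVec] at h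
    exact h
  hT := by
    intro x y
    rw [fm_apply, fm_apply, Tm_apply, mulVec_mulVec, ← mul_assoc, h1, one_mul]
  adj := by
    intro d
    refine ⟨star d, fun x y => ?_⟩
    have e1 := form_smul B x y d 1
    have e2 := form_smul B x y 1 (star d)
    rw [one_smul] at e1 e2
    rw [fm_apply, fm_apply, e1, e2, MulOpposite.unop_one, mul_one, star_one, one_mul, re_mul_comm',
      MulOpposite.unop_star]
  line := by
    intro x hb ha d e
    have key : ∀ C : Mat n, C.IsHermitian → fm C x x = 0 → fm C (d • x) (e • x) = 0 := by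
      intro C hC h0
      have h3 : star x ⬝ᵥ C *ᵥ x = 0 := by
        have h4 := Quaternion.star_eq_self.1 (star_form hC x x)
        rw [fm_apply] at h0
        rw [h4, h0]
        rfl
      rw [fm_apply, form_smul, h3, mul_zero, zero_mul]
      rfl
    exact ⟨key B hB hb, key A hA ha⟩

theorem fm_zero_iff (B : Mat n) (M : RSub n) :
    (∀ x ∈ M, ∀ y ∈ M, fm B x y = 0) ↔ Neutral B M := by
  constructor
  · intro h x hx y hy
    set q := star y ⬝ᵥ B *ᵥ x with hq
    have h1 := h y hy (MulOpposite.op (star q) • x) (M.smul_mem _ hx)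
    have e := form_smul B y x 1 (MulOpposite.op (star q))
    rw [one_smul] at e
    rw [fm_apply, e, MulOpposite.unop_one, star_one, one_mul, MulOpposite.unop_op, ← hq,
      Quaternion.self_mul_star] at h1
    exact Quaternion.normSq_eq_zero.1 h1
  · intro h x hx y hy
    rw [fm_apply, h y hy x hx]
    rfl

theorem neu_iff (A B : Mat n) (M : RSub n) :
    Pool.Agent.Helper915.QPair.Neu (fm B) (fm A) M ↔ PairNeutral A B M := by
  unfold Pool.Agent.Helper915.QPair.Neu PairNeutral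
  rw [← fm_zero_iff, ← fm_zero_iff]
  constructor
  · intro h
    exact ⟨fun x hx y hy => (h x hx y hy).2, fun x hx y hy => (h x hx y hy).1⟩
  · intro h x hx y hy
    exact ⟨h.2 x hx y hy, h.1 x hx y hy⟩

theorem maxNeu_iff (A B : Mat n) (M : RSub n) :
    Pool.Agent.Helper915.QPair.MaxNeu (fm B) (fm A) M ↔ MaxPairNeutral A B M := by
  unfold Pool.Agent.Helper915.QPair.MaxNeu MaxPairNeutral
  rw [neu_iff]
  refine and_congr_right fun _ => forall_congr' fun M' => ?_
  rw [neu_iff]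
  refine imp_congr_right fun _ => imp_congr_right fun hle => ?_
  exact ⟨fun h => le_antisymm h hle, fun h => h.le⟩

theorem finrank_four (M : RSub n) : Module.finrank ℝ (M.restrictScalars ℝ) =
    4 * Module.finrank (ℍ[ℝ])ᵐᵒᵖ M := by
  have h1 := Module.finrank_mul_finrank ℝ (ℍ[ℝ])ᵐᵒᵖ M
  have h2 : Module.finrank ℝ (ℍ[ℝ])ᵐᵒᵖ = 4 := by
    rw [← Quaternion.finrank_eq_four (R := ℝ)]
    exact (LinearEquiv.finrank_eq (MulOpposite.opLinearEquiv ℝ)).symm
  rw [h2] at h1
  exact h1.symm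

theorem finrank_V : Module.finrank ℝ (Fin n → ℍ[ℝ]) = 4 * n := by
  rw [Module.finrank_pi_fintype]
  simp [Quaternion.finrank_eq_four, mul_comm]

theorem span_pair_mem {A B X : Mat n} : X ∈ Submodule.span ℝ ({A, B} : Set (Mat n)) ↔
    ∃ p q : ℝ, p • A + q • B = X := Submodule.mem_span_pair

theorem isHerm_of_mem {A B X : Mat n} (hA : A.IsHermitian) (hB : B.IsHermitian)
    (hX : X ∈ Submodule.span ℝ ({A, B} : Set (Mat n))) : X.IsHermitian := by
  obtain ⟨p, q, rfl⟩ := span_pair_mem.1 hX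
  have h1 : ∀ (c : ℝ) (Y : Mat n), Y.IsHermitian → (c • Y).IsHermitian := by
    intro c Y hY
    ext1 i j
    have := congrFun (congrFun hY i) j
    rw [conjTranspose_apply] at this ⊢
    rw [Matrix.smul_apply, Matrix.smul_apply, Quaternion.star_smul, this]
  exact (h1 p A hA).add (h1 q B hB)

theorem neutral_of_span {A B X : Mat n} {M : RSub n} (h : PairNeutral A B M)
    (hX : X ∈ Submodule.span ℝ ({A, B} : Set (Mat n))) : Neutral X M := by
  obtain ⟨p, q, rfl⟩ := span_pair_mem.1 hX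
  intro x hx y hy
  rw [add_mulVec, dotProduct_add, smul_mulVec, smul_mulVec, dotProduct_smul, dotProduct_smul,
    h.1 x hx y hy, h.2 x hx y hy, smul_zero, smul_zero, add_zero]

theorem pairNeutral_congr {A B A' B' : Mat n}
    (hs : Submodule.span ℝ ({A, B} : Set (Mat n)) = Submodule.span ℝ ({A', B'} : Set (Mat n)))
    (M : RSub n) : PairNeutral A B M ↔ PairNeutral A' B' M := by
  have key : ∀ {A B A' B' : Mat n}, Submodule.span ℝ ({A, B} : Set (Mat n)) =
      Submodule.span ℝ ({A', B'} : Set (Mat n)) → PairNeutral A B M → PairNeutral A' B' M := by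
    intro A B A' B' hs h
    refine ⟨neutral_of_span h ?_, neutral_of_span h ?_⟩
    · rw [hs]; exact Submodule.subset_span (by simp)
    · rw [hs]; exact Submodule.subset_span (by simp)
  exact ⟨key hs, key hs.symm⟩

theorem maxPairNeutral_congr {A B A' B' : Mat n}
    (hs : Submodule.span ℝ ({A, B} : Set (Mat n)) = Submodule.span ℝ ({A', B'} : Set (Mat n)))
    (M : RSub n) : MaxPairNeutral A B M ↔ MaxPairNeutral A' B' M := by
  unfold MaxPairNeutral
  rw [pairNeutral_congr hs]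
  refine and_congr_right fun _ => forall_congr' fun M' => ?_
  rw [pairNeutral_congr hs]

theorem sameDim_congr {A B A' B' : Mat n}
    (hs : Submodule.span ℝ ({A, B} : Set (Mat n)) = Submodule.span ℝ ({A', B'} : Set (Mat n))) :
    SameDim A B ↔ SameDim A' B' := by
  unfold SameDim
  refine forall_congr' fun M₁ => forall_congr' fun M₂ => ?_
  rw [maxPairNeutral_congr hs, maxPairNeutral_congr hs]

/-- the pencil is spanned by the invertible member and one more member -/
theorem exists_partner {A B : Mat n} (C : (Mat n)ˣ)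
    (hC : (C : Mat n) ∈ Submodule.span ℝ ({A, B} : Set (Mat n))) :
    ∃ A' ∈ Submodule.span ℝ ({A, B} : Set (Mat n)), Submodule.span ℝ ({A, B} : Set (Mat n)) =
      Submodule.span ℝ ({A', (C : Mat n)} : Set (Mat n)) := by
  obtain ⟨p, q, hpq⟩ := span_pair_mem.1 hC
  by_cases hq : q = 0
  · by_cases hp : p = 0
    · have h0 : (C : Mat n) = 0 := by rw [← hpq, hp, hq]; simp
      have h1 : (1 : Mat n) = 0 := by
        rw [← C.mul_inv, h0, zero_mul]
      have hz : ∀ X : Mat n, X = 0 := fun X => by rw [← mul_one X, h1, mul_zero]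
      refine ⟨A, Submodule.subset_span (by simp), ?_⟩
      rw [hz B, h0]
    · refine ⟨B, Submodule.subset_span (by simp), ?_⟩
      apply le_antisymm
      · rw [Submodule.span_le]
        rintro X (rfl | rfl)
        · refine span_pair_mem.2 ⟨0, p⁻¹, ?_⟩
          rw [← hpq, hq]
          simp [smul_smul, inv_mul_cancel₀ hp]
        · exact Submodule.subset_span (by simp)
      · rw [Submodule.span_le]
        rintro X (rfl | rfl)
        · exact Submodule.subset_span (by simp)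
        · exact hC
  · refine ⟨A, Submodule.subset_span (by simp), ?_⟩
    apply le_antisymm
    · rw [Submodule.span_le]
      rintro X (rfl | rfl)
      · exact Submodule.subset_span (by simp)
      · refine span_pair_mem.2 ⟨-(q⁻¹ * p), q⁻¹, ?_⟩
        rw [← hpq, smul_add, smul_smul, smul_smul, inv_mul_cancel₀ hq, one_smul, neg_smul]
        abel
    · rw [Submodule.span_le]
      rintro X (rfl | rfl)
      · exact Submodule.subset_span (by simp)
      · exact hC

/-- the closure condition, for the pair consisting of the invertible member and one more -/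
theorem closed_iff (A : Mat n) (C : (Mat n)ˣ) :
    (∀ X ∈ Submodule.span ℝ ({A, (C : Mat n)} : Set (Mat n)),
      ∀ Y ∈ Submodule.span ℝ ({A, (C : Mat n)} : Set (Mat n)),
        X * (↑C⁻¹ : Mat n) * Y ∈ Submodule.span ℝ ({A, (C : Mat n)} : Set (Mat n))) ↔
    ∃ α β : ℝ, ∀ x : Fin n → ℍ[ℝ], Tm ((↑C⁻¹ : Mat n) * A) (Tm ((↑C⁻¹ : Mat n) * A) x) =
      α • Tm ((↑C⁻¹ : Mat n) * A) x + β • x := by
  constructor
  · intro h
    have hA : A ∈ Submodule.span ℝ ({A, (C : Mat n)} : Set (Mat n)) :=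
      Submodule.subset_span (by simp)
    obtain ⟨α, β, hab⟩ := span_pair_mem.1 (h A hA A hA)
    refine ⟨α, β, fun x => ?_⟩
    have e : ((↑C⁻¹ : Mat n) * A) * ((↑C⁻¹ : Mat n) * A) = α • ((↑C⁻¹ : Mat n) * A) + β • (1 : Mat n) := by
      have h2 := congrArg (fun Z => (↑C⁻¹ : Mat n) * Z) hab
      rw [mul_add, mul_smul_comm, mul_smul_comm, C.inv_mul] at h2
      rw [h2, mul_assoc, mul_assoc]
    rw [Tm_apply, Tm_apply, mulVec_mulVec, e, add_mulVec, smul_mulVec, smul_mulVec, one_mulVec]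
  · rintro ⟨α, β, h⟩
    have e : ((↑C⁻¹ : Mat n) * A) * ((↑C⁻¹ : Mat n) * A) = α • ((↑C⁻¹ : Mat n) * A) + β • (1 : Mat n) := by
      ext1 i j
      have h2 := congrFun (h (Pi.single j 1)) i
      rw [Tm_apply, Tm_apply, mulVec_mulVec] at h2
      have h3 : ∀ Z : Mat n, (Z *ᵥ Pi.single j 1) i = Z i j := by
        intro Z
        rw [mulVec_single_one]
        rfl
      have h4 : (α • ((↑C⁻¹ : Mat n) * A) + β • (1 : Mat n)) *ᵥ Pi.single j 1 =
          α • (((↑C⁻¹ : Mat n) * A) *ᵥ Pi.single j 1) + β • (Pi.single j 1 : Fin n → ℍ[ℝ]) := by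
        rw [add_mulVec, smul_mulVec, smul_mulVec, one_mulVec]
      rw [← h4, h3, h3] at h2
      exact h2
    have hAA : A * (↑C⁻¹ : Mat n) * A = α • A + β • (C : Mat n) := by
      have h2 := congrArg (fun Z => (C : Mat n) * Z) e
      rw [mul_add, mul_smul_comm, mul_smul_comm, mul_one] at h2
      simp only [mul_assoc, Units.mul_inv_cancel_left] at h2
      rw [mul_assoc]
      exact h2
    intro X hX Y hY
    obtain ⟨p, q, rfl⟩ := span_pair_mem.1 hX
    obtain ⟨p', q', rfl⟩ := span_pair_mem.1 hY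
    refine span_pair_mem.2 ⟨p * p' * α + p * q' + q * p', p * p' * β + q * q', ?_⟩
    have e1 : (C : Mat n) * (↑C⁻¹ : Mat n) = 1 := C.mul_inv
    have e2 : (↑C⁻¹ : Mat n) * (C : Mat n) = 1 := C.inv_mul
    have e3 : (p • A + q • (C : Mat n)) * (↑C⁻¹ : Mat n) * (p' • A + q' • (C : Mat n)) =
        (p * p') • (A * (↑C⁻¹ : Mat n) * A) + (p * q') • (A * ((↑C⁻¹ : Mat n) * C)) +
        (q * p') • ((C : Mat n) * (↑C⁻¹ : Mat n) * A) +
        (q * q') • ((C : Mat n) * (↑C⁻¹ : Mat n) * C) := by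
      simp only [add_mul, mul_add, smul_mul_assoc, mul_smul_comm, smul_smul, mul_assoc, smul_add]
      module
    rw [e3, hAA, e1, e2, mul_one, one_mul, one_mul]
    module

end forms

/-- **Main theorem.** Let `A`, `B` be hermitian quaternion matrices such that some real linear
combination `C` of them is invertible.

(1) If the real span of `A` and `B` is closed under `X, Y ↦ X C⁻¹ Y`, then all maximal
`(A,B)`-neutral subspaces have the same dimension.

(2) If there is an `(A,B)`-neutral subspace of dimension `n / 2` (the largest dimension a neutral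
subspace can have here), then all maximal `(A,B)`-neutral subspaces have the same dimension if and
only if the real span of `A` and `B` is closed under `X, Y ↦ X C⁻¹ Y`. -/
theorem result {n : ℕ} (A B : Mat n) (hA : A.IsHermitian) (hB : B.IsHermitian) (C : (Mat n)ˣ)
    (hC : (C : Mat n) ∈ Submodule.span ℝ ({A, B} : Set (Mat n))) :
    ((∀ X ∈ Submodule.span ℝ ({A, B} : Set (Mat n)), ∀ Y ∈ Submodule.span ℝ ({A, B} : Set (Mat n)),
        X * (↑C⁻¹ : Mat n) * Y ∈ Submodule.span ℝ ({A, B} : Set (Mat n))) → SameDim A B) ∧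
    ((∃ M₀ : RSub n, PairNeutral A B M₀ ∧ 2 * Module.finrank (ℍ[ℝ])ᵐᵒᵖ M₀ = n) →
      (SameDim A B ↔ ∀ X ∈ Submodule.span ℝ ({A, B} : Set (Mat n)),
        ∀ Y ∈ Submodule.span ℝ ({A, B} : Set (Mat n)),
          X * (↑C⁻¹ : Mat n) * Y ∈ Submodule.span ℝ ({A, B} : Set (Mat n)))) := by
  obtain ⟨A', hA'm, hs⟩ := exists_partner C hC
  have hA' : A'.IsHermitian := isHerm_of_mem hA hB hA'm
  have hCh : (C : Mat n).IsHermitian := isHerm_of_mem hA hB hC
  have hd := dat hA' hCh (B' := (↑C⁻¹ : Mat n)) C.mul_inv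
  have suff : (∃ α β : ℝ, ∀ x : Fin n → ℍ[ℝ], Tm ((↑C⁻¹ : Mat n) * A')
      (Tm ((↑C⁻¹ : Mat n) * A') x) = α • Tm ((↑C⁻¹ : Mat n) * A') x + β • x) → SameDim A B := by
    rintro ⟨α, β, hq⟩
    rw [sameDim_congr hs]
    intro M₁ M₂ h1 h2
    rw [← maxNeu_iff] at h1 h2
    have h3 := hd.quad_finrank_eq hq h1 h2
    rw [finrank_four, finrank_four] at h3
    omega
  rw [hs, closed_iff]
  refine ⟨suff, ?_⟩
  rintro ⟨M₀, hM₀, hdim⟩
  refine ⟨fun hsame => ?_, suff⟩
  rw [pairNeutral_congr hs, ← neu_iff] at hM₀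
  have h4 : Module.finrank ℝ (ℍ[ℝ])ᵐᵒᵖ = 4 := by
    rw [← Quaternion.finrank_eq_four (R := ℝ)]
    exact (LinearEquiv.finrank_eq (MulOpposite.opLinearEquiv ℝ)).symm
  refine hd.converse (by omega) hM₀ ?_ ?_
  · rw [finrank_four, finrank_V]
    omega
  · intro M₁ M₂ h1 h2
    rw [maxNeu_iff, ← maxPairNeutral_congr hs] at h1 h2
    rw [finrank_four, finrank_four, hsame M₁ M₂ h1 h2]

end Pool.Agent.Results.MP_c77211_al.Lagrangian
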